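import Pool.Agent.W261.NM.Good

set_option autoImplicit false
open Filter Topology Set Finset

namespace Pool.Agent.W261.NM

open Classical in
/-- central limit theorem for the digit sums of a good family -/
theorem clt_of_good (hS : S_clt) (b : ℕ) (hb : 2 ≤ b) (F : Set (ℕ → ℝ)) (hG : Good b F)
    (C : ℝ) (hC : 0 < C) (K : ℕ → ℕ) (hK : Tendsto K atTop atTop)
    (hKC : ∀ᶠ N : ℕ in atTop, (K N : ℝ) ≤ C * Real.log N)
    (y : ℕ → ℕ → ℝ) (hy : ∀ N, y N ∈ F) (u : ℝ) :
    Tendsto (fun N : ℕ => ((((Finset.range N).filter (fun m =>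
      ((∑ k ∈ Finset.range (K N), dig b (y N m) (k + 1) : ℤ) : ℝ) ≤
        (K N : ℝ) * ((b : ℝ) - 1) / 2 + u * Real.sqrt ((K N : ℝ) * ((b : ℝ) ^ 2 - 1) / 12))).card
          : ℕ) : ℝ) / N) atTop
    (𝓝 ((ProbabilityTheory.gaussianReal 0 1 (Set.Iic u)).toReal)) := by
  have hlog : Tendsto (fun N : ℕ => Real.log (N : ℝ)) atTop atTop :=
    Real.tendsto_log_atTop.comp tendsto_natCast_atTop_atTop
  have key := hS b hb (fun N => max N 1) K y (fun j => le_max_right _ _) hK (by
    intro s A
    obtain ⟨c, hc, N0, hI⟩ := hG s C hC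
    refine ⟨fun N => (N : ℝ) ^ (-c), fun j => by positivity, ?_, ?_⟩
    · filter_upwards [hKC, eventually_ge_atTop (max N0 1)] with N h1 h2
      have h3 : max N 1 = N := max_eq_left ((le_max_right _ _).trans h2)
      rw [h3]
      exact hI N ((le_max_left _ _).trans h2) (K N) h1 (y N) (hy N)
    · have hlim : Tendsto (fun N : ℕ => C ^ A * (Real.log (N : ℝ) ^ (A : ℝ) *
          Real.exp (-c * Real.log (N : ℝ)))) atTop (𝓝 (C ^ A * 0)) := by
        apply Tendsto.const_mul
        exact (tendsto_rpow_mul_exp_neg_mul_atTop_nhds_zero (A : ℝ) c hc).comp hlog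
      rw [mul_zero] at hlim
      refine squeeze_zero' (Eventually.of_forall fun j => by positivity) ?_ hlim
      filter_upwards [hKC, eventually_ge_atTop 1, hlog.eventually_ge_atTop 0] with N h1 h2 h3
      have hN0 : (0 : ℝ) < N := by exact_mod_cast h2
      have e1 : (N : ℝ) ^ (-c) = Real.exp (-c * Real.log (N : ℝ)) := by
        rw [Real.rpow_def_of_pos hN0]; congr 1; ring
      rw [e1, ← mul_assoc, Real.rpow_natCast, ← mul_pow]
      gcongr) u
  refine key.congr' ?_
  filter_upwards [eventually_ge_atTop 1] with N h1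
  have h3 : max N 1 = N := max_eq_left h1
  rw [h3]

end Pool.Agent.W261.NM
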