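import Pool.Agent.W261.NM.Stm

/-!
Project NM (helper261), second batch: exponential sums over polynomial values and over primes
at the frequencies `∑ lam_i b^(e_i)`, `e_i ≤ C log N`, for an algebraic irrational `ξ`.
-/

set_option autoImplicit false
open Filter Topology Set Finset

namespace Pool.Agent.W261.NM

/-- POLY: real polynomials of degree `k` with leading coefficient `ξ`, uniformly in the lower
coefficients -/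
def S_poly : Prop := ∀ b : ℕ, 2 ≤ b → ∀ ξ : ℝ, IsAlgebraic ℚ ξ → Irrational ξ →
  ∀ k : ℕ, 1 ≤ k → ∀ s : ℕ, ∀ C : ℝ, 0 < C →
  ∃ c : ℝ, 0 < c ∧ c < 1 ∧ ∃ N0 : ℕ, ∀ N : ℕ, N0 ≤ N → ∀ K H : ℕ, (K : ℝ) ≤ C * Real.log N →
    (H : ℝ) ≤ (N : ℝ) ^ c → ∀ F : Polynomial ℝ, F.natDegree = k → F.leadingCoeff = ξ →
    Wy b s N K (H : ℝ) ((N : ℝ) ^ (1 - c)) (fun m => F.eval (m : ℝ))

/-- PRIME: the first `N` primes -/
def S_prime : Prop := ∀ b : ℕ, 2 ≤ b → ∀ ξ : ℝ, IsAlgebraic ℚ ξ → Irrational ξ →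
  ∀ s : ℕ, ∀ C : ℝ, 0 < C →
  ∃ c : ℝ, 0 < c ∧ c < 1 ∧ ∃ N0 : ℕ, ∀ N : ℕ, N0 ≤ N → ∀ K H : ℕ, (K : ℝ) ≤ C * Real.log N →
    (H : ℝ) ≤ (N : ℝ) ^ c → ∀ x : ℝ,
    Wy b s N K (H : ℝ) ((N : ℝ) ^ (1 - c)) (fun m => x + ξ * (Nat.nth Nat.Prime m : ℝ))

end Pool.Agent.W261.NM
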