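import Pool.Agent.W261.NM.Freq
import Pool.Agent.W261.NM.Clt
import Pool.Agent.W261.NM.Stm2
import Pool.Agent.W930.NM.Clt
import Pool.Agent.W349.NM.MOM
import Pool.Agent.W991.NM.Ind

/-!
Project NM (helper261): assembly.
-/

set_option autoImplicit false
open Filter Topology Set Finset

namespace Pool.Agent.W261.NM

/-- the sequences `F(m)`, `m = 0, 1, …`, `F` a real polynomial of degree `k` with leading
coefficient `ξ`, and `x + ξ p_m`, `p_m` the primes in increasing order, `x` real -/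
def Fam (ξ : ℝ) (k : ℕ) : Set (ℕ → ℝ) :=
  {y | (∃ F : Polynomial ℝ, F.natDegree = k ∧ F.leadingCoeff = ξ ∧ ∀ m : ℕ, y m = F.eval (m : ℝ)) ∨
    ∃ x : ℝ, ∀ m : ℕ, y m = x + ξ * (Nat.nth Nat.Prime m : ℝ)}

theorem Wy.mono {b D N K : ℕ} {R B B' : ℝ} {y : ℕ → ℝ} (h : Wy b D N K R B y) (hB : B ≤ B') :
    Wy b D N K R B' y := fun e he lam hlam hne => (h e he lam hlam hne).trans hB

theorem good_fam (hP : S_poly) (hQ : S_prime) (b : ℕ) (hb : 2 ≤ b) (ξ : ℝ) (hξ : IsAlgebraic ℚ ξ)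
    (hirr : Irrational ξ) (k : ℕ) (hk : 1 ≤ k) : Good b (Fam ξ k) := by
  apply good_of_wy Pool.Agent.W991.NM.ind b hb
  intro s C hC
  obtain ⟨c1, h1, h1', N1, hN1⟩ := hP b hb ξ hξ hirr k hk s C hC
  obtain ⟨c2, h2, h2', N2, hN2⟩ := hQ b hb ξ hξ hirr s C hC
  refine ⟨min c1 c2, lt_min h1 h2, (min_le_left _ _).trans_lt h1', max (max N1 N2) 1,
    fun N hN K H hK hH y hy => ?_⟩
  have hN1' : N1 ≤ N := ((le_max_left _ _).trans (le_max_left _ _)).trans hN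
  have hN2' : N2 ≤ N := ((le_max_right _ _).trans (le_max_left _ _)).trans hN
  have hN0 : 1 ≤ N := (le_max_right _ _).trans hN
  have hNR : (1 : ℝ) ≤ N := by exact_mod_cast hN0
  rcases hy with ⟨F, hF1, hF2, hF3⟩ | ⟨x, hx⟩
  · have e : y = fun m : ℕ => F.eval (m : ℝ) := funext hF3
    rw [e]
    refine (hN1 N hN1' K H hK (hH.trans (Real.rpow_le_rpow_of_exponent_le hNR (min_le_left _ _)))
      F hF1 hF2).mono ?_
    exact Real.rpow_le_rpow_of_exponent_le hNR (by linarith [min_le_left c1 c2])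
  · have e : y = fun m : ℕ => x + ξ * (Nat.nth Nat.Prime m : ℝ) := funext hx
    rw [e]
    refine (hN2 N hN2' K H hK (hH.trans (Real.rpow_le_rpow_of_exponent_le hNR (min_le_right _ _)))
      x).mono ?_
    exact Real.rpow_le_rpow_of_exponent_le hNR (by linarith [min_le_right c1 c2])

open Classical in
theorem joint_of_good (b : ℕ) (F : Set (ℕ → ℝ)) (hG : Good b F) (C : ℝ) (hC : 0 < C) (s : ℕ) :
    ∃ c : ℝ, 0 < c ∧ ∃ N0 : ℕ, ∀ N : ℕ, N0 ≤ N → ∀ y ∈ F, ∀ e : Fin s → ℕ,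
      Function.Injective e → (∀ i, 1 ≤ e i ∧ (e i : ℝ) ≤ C * Real.log N) →
      ∀ a : Fin s → ℤ, (∀ i, 0 ≤ a i ∧ a i < b) →
      |((((Finset.range N).filter (fun m => ∀ i, dig b (y m) (e i) = a i)).card : ℕ) : ℝ)
        - (N : ℝ) / (b : ℝ) ^ s| ≤ (N : ℝ) ^ (1 - c) := by
  obtain ⟨c, hc, N0, h⟩ := hG s C hC
  refine ⟨c, hc, max N0 1, fun N hN y hy e he heC a ha => ?_⟩
  have hN1 : 1 ≤ N := (le_max_right _ _).trans hN
  have hNR : (1 : ℝ) ≤ N := by exact_mod_cast hN1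
  have hpos : 0 ≤ C * Real.log N := mul_nonneg hC.le (Real.log_nonneg hNR)
  have key := h N ((le_max_left _ _).trans hN) ⌊C * Real.log N⌋₊ (Nat.floor_le hpos) y hy s le_rfl
    e he (fun i => ⟨(heC i).1, Nat.le_floor (heC i).2⟩) a ha
  refine key.trans (le_of_eq ?_)
  rw [← Real.rpow_add_one (by linarith : (N : ℝ) ≠ 0)]
  congr 1; ring

end Pool.Agent.W261.NM
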