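import Pool.Agent.W261.NM.Good
import Pool.Agent.W301.RM.Joint

set_option autoImplicit false
open Filter Topology Set Finset

namespace Pool.Agent.W261.NM

theorem ex_eq_ee (x : ℝ) : ex x = Pool.Agent.H807R2.Dav.ee x := by
  unfold ex Pool.Agent.H807R2.Dav.ee
  congr 1; ring

theorem small_of_wy {b s N K : ℕ} {R B : ℝ} {y : ℕ → ℝ} (h : Wy b s N K R B y) (hN : 1 ≤ N)
    (n : Fin s → ℕ) (hn : ∀ j, n j ≤ K) (R' : ℕ) (hR : (R' : ℝ) ≤ R) :
    Pool.Agent.W301.RM.Small (Finset.range N) y b s n R' (B / N) := by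
  intro lam hlam hne
  have hN0 : (0 : ℝ) < N := by exact_mod_cast hN
  have h1 := h n hn lam (fun i => by
    refine le_trans ?_ hR
    have := (hlam i).le
    exact_mod_cast this) hne
  rw [Finset.card_range, div_mul_cancel₀ _ hN0.ne']
  refine le_trans (le_of_eq ?_) h1
  congr 1
  exact Finset.sum_congr rfl fun m _ => (ex_eq_ee _).symm

open Classical in
/-- windows of length `c log N` -/
theorem win_of_wy (b : ℕ) (hb : 2 ≤ b) (F : Set (ℕ → ℝ))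
    (h : ∀ s : ℕ, ∀ C : ℝ, 0 < C → ∃ c : ℝ, 0 < c ∧ c < 1 ∧ ∃ N0 : ℕ, ∀ N : ℕ, N0 ≤ N →
      ∀ K H : ℕ, (K : ℝ) ≤ C * Real.log N → (H : ℝ) ≤ (N : ℝ) ^ c → ∀ y ∈ F,
      Wy b s N K (H : ℝ) ((N : ℝ) ^ (1 - c)) y) (C : ℝ) (hC : 0 < C) (s : ℕ) (hs : 1 ≤ s) :
    ∃ c : ℝ, 0 < c ∧ ∃ N0 : ℕ, ∀ N : ℕ, N0 ≤ N → ∀ y ∈ F, ∀ ℓ : ℕ, 1 ≤ ℓ →
      (ℓ : ℝ) ≤ c * Real.log N → ∀ n : Fin s → ℕ, (∀ j, (n j : ℝ) ≤ C * Real.log N) →
      (∀ i j, i ≠ j → n i + ℓ ≤ n j ∨ n j + ℓ ≤ n i) →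
      ∀ A : Finset (Fin s → ℤ), A ⊆ Fintype.piFinset (fun _ => Finset.Ico (0 : ℤ) ((b : ℤ) ^ ℓ)) →
      |(((Finset.range N).filter (fun m : ℕ =>
          (fun j => ⌊(b : ℝ) ^ (n j + ℓ) * y m⌋ % (b : ℤ) ^ ℓ) ∈ A)).card : ℝ) -
        A.card / (b : ℝ) ^ (s * ℓ) * N| ≤ (N : ℝ) ^ (1 - c) := by
  have hbR : (2 : ℝ) ≤ b := by exact_mod_cast hb
  have hb0 : (0 : ℝ) < b := by linarith
  have hb1 : (1 : ℝ) ≤ b := by linarith
  have hlb : 0 < Real.log b := Real.log_pos (by linarith)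
  have hs0 : (0 : ℝ) < s := by exact_mod_cast hs
  have hs1 : (1 : ℝ) ≤ s := by exact_mod_cast hs
  obtain ⟨c0, hc0, hc01, N1, hW⟩ := h s C hC
  set κ : ℝ := c0 / (16 * s) with hκ
  have hκ0 : 0 < κ := by positivity
  have hκs : 16 * s * κ = c0 := by rw [hκ]; field_simp
  have hκc : 16 * κ ≤ c0 := by
    rw [← hκs]; nlinarith
  set c : ℝ := min (κ / 2) (κ / (4 * s * Real.log b)) with hc
  have hcpos : 0 < c := lt_min (by positivity) (by positivity)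
  have hc1 : c ≤ κ / 2 := min_le_left _ _
  have hc2 : s * c * Real.log b ≤ κ / 4 := by
    have h1 : c ≤ κ / (4 * s * Real.log b) := min_le_right _ _
    rw [le_div_iff₀ (by positivity)] at h1
    linarith
  have hlog : Tendsto (fun N : ℕ => Real.log (N : ℝ)) atTop atTop :=
    Real.tendsto_log_atTop.comp tendsto_natCast_atTop_atTop
  have hev := ((ev_rpow (4 * s * b + 1) (κ / 4) (by positivity)).and
    (hlog.eventually_ge_atTop (4 * Real.log b / κ))).and (eventually_ge_atTop (max N1 1))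
  obtain ⟨N2, hN2⟩ := eventually_atTop.1 hev
  refine ⟨c, hcpos, N2, fun N hN y hy ℓ hℓ hℓc n hn hdis A hA => ?_⟩
  obtain ⟨⟨h1, h2⟩, h3⟩ := hN2 N hN
  have hNN1 : N1 ≤ N := (le_max_left _ _).trans h3
  have hNone : 1 ≤ N := (le_max_right _ _).trans h3
  have hNR : (1 : ℝ) ≤ N := by exact_mod_cast hNone
  have hN0 : (0 : ℝ) < N := by linarith
  have hL0 : 0 ≤ Real.log N := Real.log_nonneg hNR
  -- r
  set r : ℕ := ⌊κ * Real.log N / Real.log b⌋₊ with hr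
  have hr1 : (r : ℝ) ≤ κ * Real.log N / Real.log b := Nat.floor_le (by positivity)
  have hr2 : κ * Real.log N / Real.log b < r + 1 := Nat.lt_floor_add_one _
  have hr1' : r * Real.log b ≤ κ * Real.log N := by rwa [le_div_iff₀ hlb] at hr1
  have hr2' : κ * Real.log N < (r + 1) * Real.log b := by rwa [div_lt_iff₀ hlb] at hr2
  have hr3 : 2 ≤ r := by
    have a1 : 4 * Real.log b ≤ κ * Real.log N := by
      rw [div_le_iff₀ hκ0] at h2; linarith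
    have a2 : 4 * Real.log b < (r + 1) * Real.log b := a1.trans_lt hr2'
    have a3 : (4 : ℝ) < r + 1 := lt_of_mul_lt_mul_right a2 hlb.le
    have a4 : (2 : ℝ) < r := by linarith
    exact_mod_cast a4.le
  have hℓr : ℓ ≤ r := by
    have a1 : (ℓ : ℝ) * Real.log b ≤ κ / 4 * Real.log N := by
      calc (ℓ : ℝ) * Real.log b ≤ (c * Real.log N) * Real.log b := by gcongr
        _ ≤ (s * c * Real.log b) * Real.log N := by
            have : 0 ≤ c * Real.log N * Real.log b := by positivity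
            nlinarith
        _ ≤ κ / 4 * Real.log N := mul_le_mul_of_nonneg_right hc2 hL0
    have a2 : (ℓ : ℝ) * Real.log b < (r + 1) * Real.log b := by
      refine lt_of_le_of_lt (a1.trans ?_) hr2'
      have : 0 ≤ κ * Real.log N := by positivity
      linarith
    have a3 : (ℓ : ℝ) < r + 1 := lt_of_mul_lt_mul_right a2 hlb.le
    have a4 : ℓ < r + 1 := by exact_mod_cast a3
    omega
  set ρ : ℕ := b ^ r with hρ
  have hρR : (ρ : ℝ) = (b : ℝ) ^ r := by rw [hρ]; push_cast; rfl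
  have hpow : ∀ t : ℕ, (b : ℝ) ^ t = (N : ℝ) ^ ((t : ℝ) * Real.log b / Real.log N) ∨ Real.log N = 0 := by
    intro t
    rcases eq_or_ne (Real.log N) 0 with h0 | h0
    · right; exact h0
    · left
      rw [Real.rpow_def_of_pos hN0, ← Real.rpow_natCast, Real.rpow_def_of_pos hb0]
      congr 1; field_simp
  have hρ4 : 4 ≤ ρ := by
    calc 4 = 2 ^ 2 := by norm_num
      _ ≤ b ^ 2 := Nat.pow_le_pow_left hb 2
      _ ≤ b ^ r := Nat.pow_le_pow_right (by omega) hr3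
  have hρle : (ρ : ℝ) ≤ (N : ℝ) ^ κ := by
    rw [hρR, ← Real.rpow_natCast, Real.rpow_def_of_pos hb0, Real.rpow_def_of_pos hN0]
    apply Real.exp_le_exp.2
    linarith
  have hρge : (N : ℝ) ^ κ ≤ b * ρ := by
    have : (b : ℝ) * ρ = (b : ℝ) ^ ((r : ℝ) + 1) := by
      rw [Real.rpow_add hb0, Real.rpow_one, Real.rpow_natCast, hρR]; ring
    rw [this, Real.rpow_def_of_pos hb0, Real.rpow_def_of_pos hN0]
    apply Real.exp_le_exp.2
    linarith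
  have hR : ((ρ ^ 4 : ℕ) : ℝ) ≤ (N : ℝ) ^ c0 := by
    push_cast
    calc (ρ : ℝ) ^ 4 ≤ ((N : ℝ) ^ κ) ^ 4 := pow_le_pow_left₀ (by positivity) hρle 4
      _ = (N : ℝ) ^ (κ * 4) := by rw [← Real.rpow_natCast, ← Real.rpow_mul hN0.le]; norm_num
      _ ≤ _ := Real.rpow_le_rpow_of_exponent_le hNR (by linarith)
  have hQ : b ^ ℓ * b ^ (4 * r - ℓ) = ρ ^ 4 := by
    rw [hρ, ← pow_add, ← pow_mul]; congr 1; omega
  have hn' : b ^ (4 * r - ℓ) + 2 * ρ ^ 3 ≤ ρ ^ 4 := by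
    have h1 : 2 * b ^ (4 * r - ℓ) ≤ ρ ^ 4 := by
      rw [← hQ]
      apply Nat.mul_le_mul_right
      calc 2 ≤ b := hb
        _ = b ^ 1 := (pow_one b).symm
        _ ≤ b ^ ℓ := Nat.pow_le_pow_right (by omega) hℓ
    have h2 : 4 * ρ ^ 3 ≤ ρ ^ 4 := by
      calc 4 * ρ ^ 3 ≤ ρ * ρ ^ 3 := Nat.mul_le_mul_right _ hρ4
        _ = ρ ^ 4 := by ring
    omega
  have hne : (Finset.range N).Nonempty := ⟨0, Finset.mem_range.2 hNone⟩
  have hCL : 0 ≤ C * Real.log N := by positivity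
  have hwy := hW N hNN1 ⌊C * Real.log N⌋₊ (ρ ^ 4) (Nat.floor_le hCL) hR y hy
  have hsm := small_of_wy hwy hNone n (fun j => Nat.le_floor (hn j)) (ρ ^ 4) le_rfl
  have hj := Pool.Agent.W301.RM.joint (Finset.range N) hne y hb hs hℓ (by omega : 2 ≤ ρ) hQ hn' n hdis
    (B := (N : ℝ) ^ (1 - c0) / N) (by positivity) hsm A hA
  rw [Finset.card_range] at hj
  have e0 : (((b ^ (s * ℓ) : ℕ) : ℕ) : ℝ) = (b : ℝ) ^ (s * ℓ) := by push_cast; rfl
  rw [e0] at hj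
  refine le_trans (le_trans (le_of_eq ?_) hj) ?_
  · congr 3
  -- bounding the error
  have e1 : (b : ℝ) ^ (s * ℓ) ≤ (N : ℝ) ^ (κ / 4) := by
    rw [← Real.rpow_natCast, Real.rpow_def_of_pos hb0, Real.rpow_def_of_pos hN0]
    apply Real.exp_le_exp.2
    push_cast
    calc Real.log b * (s * ℓ) ≤ Real.log b * (s * (c * Real.log N)) := by gcongr
      _ = (s * c * Real.log b) * Real.log N := by ring
      _ ≤ κ / 4 * Real.log N := mul_le_mul_of_nonneg_right hc2 hL0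
      _ = _ := by ring
  have e2 : (N : ℝ) ^ (1 - c0) / N = (N : ℝ) ^ (-c0) := by
    rw [div_eq_iff hN0.ne', ← Real.rpow_add_one hN0.ne']
    congr 1; ring
  have e3 : ((ρ : ℝ) ^ 4) ^ s * ((N : ℝ) ^ (1 - c0) / N) ≤ (N : ℝ) ^ (-κ) := by
    rw [e2]
    calc ((ρ : ℝ) ^ 4) ^ s * (N : ℝ) ^ (-c0) ≤ (((N : ℝ) ^ κ) ^ 4) ^ s * (N : ℝ) ^ (-c0) := by
          gcongr
      _ = (N : ℝ) ^ (κ * 4 * s + -c0) := by
          rw [Real.rpow_add hN0, Real.rpow_mul hN0.le, Real.rpow_mul hN0.le, Real.rpow_natCast]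
          norm_num
      _ ≤ _ := by
          apply Real.rpow_le_rpow_of_exponent_le hNR
          nlinarith
  have e4 : 4 * (s : ℝ) / ρ ≤ 4 * s * b * (N : ℝ) ^ (-κ) := by
    rw [Real.rpow_neg hN0.le, ← div_eq_mul_inv, div_le_div_iff₀ (by positivity) (by positivity)]
    calc 4 * (s : ℝ) * (N : ℝ) ^ κ ≤ 4 * s * (b * ρ) := by gcongr
      _ = _ := by ring
  have e5 : (N : ℝ) ^ (κ / 4) * ((4 * s * b + 1) * (N : ℝ) ^ (-κ)) ≤ (N : ℝ) ^ (-(κ / 2)) := by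
    calc (N : ℝ) ^ (κ / 4) * ((4 * s * b + 1) * (N : ℝ) ^ (-κ))
        ≤ (N : ℝ) ^ (κ / 4) * ((N : ℝ) ^ (κ / 4) * (N : ℝ) ^ (-κ)) := by gcongr
      _ = (N : ℝ) ^ (-(κ / 2)) := by
          rw [← Real.rpow_add hN0, ← Real.rpow_add hN0]; congr 1; ring
  calc (b : ℝ) ^ (s * ℓ) * (4 * s / ρ + ((ρ : ℝ) ^ 4) ^ s * ((N : ℝ) ^ (1 - c0) / N)) * N
      ≤ (N : ℝ) ^ (κ / 4) * (4 * s * b * (N : ℝ) ^ (-κ) + (N : ℝ) ^ (-κ)) * N := by gcongr
    _ = (N : ℝ) ^ (κ / 4) * ((4 * s * b + 1) * (N : ℝ) ^ (-κ)) * N := by ring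
    _ ≤ (N : ℝ) ^ (-(κ / 2)) * N := mul_le_mul_of_nonneg_right e5 hN0.le
    _ = (N : ℝ) ^ (-(κ / 2) + 1) := (Real.rpow_add_one hN0.ne' _).symm
    _ ≤ _ := Real.rpow_le_rpow_of_exponent_le hNR (by linarith)

end Pool.Agent.W261.NM
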