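import Pool.Agent.W261.NM.Stm
import Pool.Agent.H648R2.S.Merge

set_option autoImplicit false
open Filter Topology Set Finset

namespace Pool.Agent.W261.NM

/-- lower bound for all combinations of few powers of `b`, exponents up to `C log N` -/
theorem lowbd (b : ℕ) (hb : 2 ≤ b) (ξ : ℝ) (hξ : IsAlgebraic ℚ ξ) (hirr : Irrational ξ) (D : ℕ)
    (C η : ℝ) (hC : 0 < C) (hη : 0 < η) :
    ∃ c : ℝ, 0 < c ∧ ∃ N0 : ℕ, ∀ N : ℕ, N0 ≤ N → ∀ e : Fin D → ℕ,
      (∀ i, (e i : ℝ) ≤ C * Real.log N) →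
      ∀ lam : Fin D → ℤ, (∀ i, |(lam i : ℝ)| ≤ (N : ℝ) ^ c) →
      ∑ i, lam i * (b : ℤ) ^ (e i) ≠ 0 →
      ∀ P : ℤ, (N : ℝ) ^ (-η) < |ξ * ((∑ i, lam i * (b : ℤ) ^ (e i) : ℤ) : ℝ) - P| := by
  have hbR : (2 : ℝ) ≤ b := by exact_mod_cast hb
  have hlb : 0 < Real.log b := Real.log_pos (by linarith)
  -- parameters
  set κ : ℝ := η / (4 * Real.log b) with hκ
  have hκ0 : 0 < κ := by positivity
  set δ : ℝ := min 1 (κ / (C + κ + 1)) with hδ
  have hδ0 : 0 < δ := lt_min one_pos (by positivity)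
  have hδ1 : δ ≤ 1 := min_le_left _ _
  have hδ2 : δ * (C + κ + 1) ≤ κ := by
    have h1 : δ ≤ κ / (C + κ + 1) := min_le_right _ _
    rwa [le_div_iff₀ (by positivity)] at h1
  obtain ⟨ε, hε, L0, hm⟩ := Pool.Agent.H648R2.S.merge b hb ξ hξ hirr D δ hδ0
  refine ⟨ε * (κ * Real.log b), by positivity, ?_⟩
  -- large N
  have hlog : Tendsto (fun N : ℕ => Real.log (N : ℝ)) atTop atTop :=
    Real.tendsto_log_atTop.comp tendsto_natCast_atTop_atTop
  have hev := (hlog.eventually_ge_atTop (max 1 (max ((L0 : ℝ) / κ) (4 * Real.log b / η)))).and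
    (eventually_ge_atTop 1)
  obtain ⟨N0, hN0⟩ := eventually_atTop.1 hev
  refine ⟨N0, fun N hN e he lam hlam hne P => ?_⟩
  obtain ⟨hlN, hN1⟩ := hN0 N hN
  have hNpos : (0 : ℝ) < N := by exact_mod_cast hN1
  have hl1 : 1 ≤ Real.log N := (le_max_left _ _).trans hlN
  have hl2 : (L0 : ℝ) / κ ≤ Real.log N :=
    ((le_max_left _ _).trans (le_max_right _ _)).trans hlN
  have hl3 : 4 * Real.log b / η ≤ Real.log N :=
    ((le_max_right _ _).trans (le_max_right _ _)).trans hlN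
  set L : ℕ := ⌈κ * Real.log N⌉₊ with hL
  have hL1 : κ * Real.log N ≤ L := Nat.le_ceil _
  have hL2 : (L : ℝ) < κ * Real.log N + 1 := Nat.ceil_lt_add_one (by positivity)
  have hLL0 : L0 ≤ L := by
    have : (L0 : ℝ) ≤ L := by
      rw [div_le_iff₀ hκ0] at hl2
      linarith
    exact_mod_cast this
  have key := hm L hLL0 (fun i => e i + L) (fun i => Nat.le_add_left _ _) (fun i => by
    have h1 := he i
    push_cast
    calc δ * ((e i : ℝ) + L) ≤ δ * (C * Real.log N + (κ * Real.log N + 1)) := by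
          apply mul_le_mul_of_nonneg_left _ hδ0.le
          linarith
      _ ≤ δ * ((C + κ + 1) * Real.log N) := by
          apply mul_le_mul_of_nonneg_left _ hδ0.le
          nlinarith
      _ = (δ * (C + κ + 1)) * Real.log N := by ring
      _ ≤ κ * Real.log N := mul_le_mul_of_nonneg_right hδ2 (by linarith)
      _ ≤ L := hL1) lam (fun j => by
    refine (hlam j).trans ?_
    rw [Real.rpow_def_of_pos hNpos]
    apply Real.exp_le_exp.2
    have : κ * Real.log N * Real.log b ≤ L * Real.log b :=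
      mul_le_mul_of_nonneg_right hL1 hlb.le
    nlinarith) (by
    intro h0
    apply hne
    have h1 : (∑ j, lam j * (b : ℤ) ^ (e j + L)) = (∑ j, lam j * (b : ℤ) ^ (e j)) * (b : ℤ) ^ L := by
      rw [Finset.sum_mul]
      exact Finset.sum_congr rfl fun j _ => by rw [pow_add]; ring
    rw [h1] at h0
    rcases mul_eq_zero.1 h0 with h2 | h2
    · exact h2
    · exfalso
      have : (b : ℤ) ≠ 0 := by positivity
      exact pow_ne_zero L this h2) (P * (b : ℤ) ^ L)
  have h2 : ξ * ∑ j, (lam j : ℝ) * (b : ℝ) ^ (e j + L) - ((P * (b : ℤ) ^ L : ℤ) : ℝ) =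
      (ξ * ((∑ i, lam i * (b : ℤ) ^ (e i) : ℤ) : ℝ) - P) * (b : ℝ) ^ L := by
    push_cast
    rw [Finset.mul_sum, Finset.mul_sum, sub_mul, Finset.sum_mul]
    congr 1
    exact Finset.sum_congr rfl fun j _ => by rw [pow_add]; ring
  rw [h2, abs_mul, abs_of_pos (by positivity : (0 : ℝ) < (b : ℝ) ^ L)] at key
  have hbL : (b : ℝ) ^ L = Real.exp (L * Real.log b) := by
    rw [← Real.rpow_natCast, Real.rpow_def_of_pos (by linarith)]
    congr 1; ring
  rw [hbL] at key
  have h4 : Real.exp (-(δ * (L * Real.log b))) / Real.exp (L * Real.log b) <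
      |ξ * ((∑ i, lam i * (b : ℤ) ^ (e i) : ℤ) : ℝ) - P| := by
    rwa [div_lt_iff₀ (Real.exp_pos _)]
  refine lt_of_le_of_lt ?_ h4
  rw [← Real.exp_sub, Real.rpow_def_of_pos hNpos]
  apply Real.exp_le_exp.2
  have h5 : δ * (L * Real.log b) ≤ 1 * (L * Real.log b) :=
    mul_le_mul_of_nonneg_right hδ1 (by positivity)
  have h6 : (L : ℝ) * Real.log b ≤ (κ * Real.log N + 1) * Real.log b :=
    mul_le_mul_of_nonneg_right hL2.le hlb.le
  have h7 : κ * Real.log b = η / 4 := by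
    rw [hκ]; field_simp
  have h8 : 4 * Real.log b ≤ Real.log N * η := by
    rwa [div_le_iff₀ hη] at hl3
  have h9 : (κ * Real.log N + 1) * Real.log b = η / 4 * Real.log N + Real.log b := by
    rw [add_mul, one_mul, mul_right_comm, h7]
  nlinarith

end Pool.Agent.W261.NM
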