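import Pool.Agent.W261.NM.Stm

set_option autoImplicit false
open Filter Topology Set Finset

namespace Pool.Agent.W261.NM

theorem ex_add (x y : ℝ) : ex (x + y) = ex x * ex y := by
  unfold ex; rw [← Complex.exp_add]; congr 1; push_cast; ring

theorem ex_zero : ex 0 = 1 := by simp [ex]

theorem norm_ex (x : ℝ) : ‖ex x‖ = 1 := by
  unfold ex
  have : (2 * Real.pi * x * Complex.I : ℂ) = ((2 * Real.pi * x : ℝ) : ℂ) * Complex.I := by
    push_cast; ring
  rw [this, Complex.norm_exp_ofReal_mul_I]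

theorem ex_int (n : ℤ) : ex (n : ℝ) = 1 := by
  unfold ex
  rw [Complex.exp_eq_one_iff]
  exact ⟨n, by push_cast; ring⟩

theorem ex_natmul (m : ℕ) (x : ℝ) : ex (m * x) = ex x ^ m := by
  unfold ex
  rw [← Complex.exp_nat_mul]
  congr 1; push_cast; ring

/-- `|1 - e(θ)| ≥ 4 ‖θ‖` -/
theorem four_le (θ δ : ℝ) (h : ∀ P : ℤ, δ ≤ |θ - P|) : 4 * δ ≤ ‖1 - ex θ‖ := by
  set P : ℤ := round θ with hP
  have h1 : |θ - P| ≤ 1 / 2 := abs_sub_round θ
  have h2 : ex θ = ex (θ - P) := by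
    have : θ = (θ - P) + (P : ℤ) := by ring
    conv_lhs => rw [this]
    rw [ex_add, ex_int, mul_one]
  have h3 : ‖1 - ex θ‖ = 2 * |Real.sin (Real.pi * (θ - P))| := by
    rw [h2]
    unfold ex
    rw [norm_sub_rev]
    have e1 : (2 * Real.pi * ((θ - P : ℝ) : ℂ) * Complex.I) =
        Complex.I * ((2 * Real.pi * (θ - P) : ℝ) : ℂ) := by push_cast; ring
    rw [e1, Complex.norm_exp_I_mul_ofReal_sub_one, Real.norm_eq_abs, abs_mul, abs_two]
    congr 3; ring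
  rw [h3]
  have h4 : 2 / Real.pi * |Real.pi * (θ - P)| ≤ |Real.sin (Real.pi * (θ - P))| := by
    apply Real.mul_abs_le_abs_sin
    rw [abs_mul, abs_of_pos Real.pi_pos]
    nlinarith [Real.pi_pos]
  rw [abs_mul, abs_of_pos Real.pi_pos] at h4
  have h5 : 2 / Real.pi * (Real.pi * |θ - P|) = 2 * |θ - P| := by
    field_simp
  rw [h5] at h4
  have h6 := h P
  linarith

/-- geometric sum -/
theorem geo (θ β δ : ℝ) (hδ : 0 < δ) (h : ∀ P : ℤ, δ ≤ |θ - P|) (N : ℕ) :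
    ‖∑ m ∈ Finset.range N, ex (β + m * θ)‖ ≤ 1 / (2 * δ) := by
  have h1 := four_le θ δ h
  have hne : ex θ ≠ 1 := by
    intro h2
    rw [h2, sub_self, norm_zero] at h1
    linarith
  have h2 : ∑ m ∈ Finset.range N, ex (β + m * θ) = ex β * ((ex θ ^ N - 1) / (ex θ - 1)) := by
    rw [← geom_sum_eq hne, Finset.mul_sum]
    exact Finset.sum_congr rfl fun m _ => by rw [ex_add, ex_natmul]
  rw [h2, norm_mul, norm_ex, one_mul, norm_div]
  have h3 : ‖ex θ ^ N - 1‖ ≤ 2 := by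
    calc ‖ex θ ^ N - 1‖ ≤ ‖ex θ ^ N‖ + ‖(1 : ℂ)‖ := norm_sub_le _ _
      _ = 2 := by rw [norm_pow, norm_ex, one_pow, norm_one]; norm_num
  have h4 : 4 * δ ≤ ‖ex θ - 1‖ := by rwa [norm_sub_rev]
  calc ‖ex θ ^ N - 1‖ / ‖ex θ - 1‖ ≤ 2 / (4 * δ) := by
        apply div_le_div₀ (by norm_num) h3 (by positivity) h4
    _ = 1 / (2 * δ) := by field_simp; norm_num

end Pool.Agent.W261.NM
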