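import Pool.Agent.W261.NM.Fin
import Pool.Agent.W261.NM.Win
import Pool.Agent.W346.NM.Poly
import Pool.Agent.W978.NM.Prime

/-!
Project NM (helper261): the family of polynomial and prime multiples, all inputs discharged.
-/

set_option autoImplicit false
open Filter Topology Set Finset

namespace Pool.Agent.W261.NM

theorem wy_fam (b : ℕ) (hb : 2 ≤ b) (ξ : ℝ) (hξ : IsAlgebraic ℚ ξ) (hirr : Irrational ξ) (k : ℕ)
    (hk : 1 ≤ k) : ∀ s : ℕ, ∀ C : ℝ, 0 < C → ∃ c : ℝ, 0 < c ∧ c < 1 ∧ ∃ N0 : ℕ, ∀ N : ℕ, N0 ≤ N →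
      ∀ K H : ℕ, (K : ℝ) ≤ C * Real.log N → (H : ℝ) ≤ (N : ℝ) ^ c → ∀ y ∈ Fam ξ k,
      Wy b s N K (H : ℝ) ((N : ℝ) ^ (1 - c)) y := by
  intro s C hC
  obtain ⟨c1, h1, h1', N1, hN1⟩ := Pool.Agent.W346.NM.poly b hb ξ hξ hirr k hk s C hC
  obtain ⟨c2, h2, h2', N2, hN2⟩ := Pool.Agent.W978.NM.prime_ b hb ξ hξ hirr s C hC
  refine ⟨min c1 c2, lt_min h1 h2, (min_le_left _ _).trans_lt h1', max (max N1 N2) 1,
    fun N hN K H hK hH y hy => ?_⟩
  have hN1' : N1 ≤ N := ((le_max_left _ _).trans (le_max_left _ _)).trans hN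
  have hN2' : N2 ≤ N := ((le_max_right _ _).trans (le_max_left _ _)).trans hN
  have hN0 : 1 ≤ N := (le_max_right _ _).trans hN
  have hNR : (1 : ℝ) ≤ N := by exact_mod_cast hN0
  rcases hy with ⟨F, hF1, hF2, hF3⟩ | ⟨x, hx⟩
  · have e : y = fun m : ℕ => F.eval (m : ℝ) := funext hF3
    rw [e]
    refine (hN1 N hN1' K H hK (hH.trans (Real.rpow_le_rpow_of_exponent_le hNR (min_le_left _ _)))
      F hF1 hF2).mono ?_
    exact Real.rpow_le_rpow_of_exponent_le hNR (by linarith [min_le_left c1 c2])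
  · have e : y = fun m : ℕ => x + ξ * (Nat.nth Nat.Prime m : ℝ) := funext hx
    rw [e]
    refine (hN2 N hN2' K H hK (hH.trans (Real.rpow_le_rpow_of_exponent_le hNR (min_le_right _ _)))
      x).mono ?_
    exact Real.rpow_le_rpow_of_exponent_le hNR (by linarith [min_le_right c1 c2])

end Pool.Agent.W261.NM
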