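import Pool.Agent.W261.NM.Good

set_option autoImplicit false
open Filter Topology Set Finset

namespace Pool.Agent.W261.NM

open Classical in
/-- Markov for one `K` and one block -/
theorem markov (N K r l b : ℕ) (w : Fin l → ℤ) (y : ℕ → ℝ) (Cm ε E : ℝ) (hK : 1 ≤ K)
    (h : ∑ m ∈ Finset.range N, ((occ b w (y m) K : ℝ) - (K : ℝ) / (b : ℝ) ^ l) ^ (2 * r) ≤
      Cm * N * ((K : ℝ) ^ r + (K : ℝ) ^ (2 * r) * E)) (hCm : 0 ≤ Cm) (hE : 0 ≤ E) (hε : 0 < ε) :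
    ((((Finset.range N).filter (fun m => (K : ℝ) ^ ((1 : ℝ) / 2 + ε) <
      |(occ b w (y m) K : ℝ) - (K : ℝ) / (b : ℝ) ^ l|)).card : ℕ) : ℝ) ≤
      Cm * N * ((K : ℝ) ^ (-(2 * ε * r)) + (K : ℝ) ^ r * E) := by
  have hK1 : (1 : ℝ) ≤ K := by exact_mod_cast hK
  have hK0 : (0 : ℝ) < K := by linarith
  set T := (Finset.range N).filter (fun m => (K : ℝ) ^ ((1 : ℝ) / 2 + ε) <
      |(occ b w (y m) K : ℝ) - (K : ℝ) / (b : ℝ) ^ l|) with hT
  set Z : ℝ := (K : ℝ) ^ ((1 : ℝ) / 2 + ε) with hZ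
  have hZ0 : 0 < Z := by positivity
  have h1 : (T.card : ℝ) * Z ^ (2 * r) ≤ Cm * N * ((K : ℝ) ^ r + (K : ℝ) ^ (2 * r) * E) := by
    refine le_trans ?_ h
    calc (T.card : ℝ) * Z ^ (2 * r) = ∑ m ∈ T, Z ^ (2 * r) := by
          rw [Finset.sum_const, nsmul_eq_mul]
      _ ≤ ∑ m ∈ T, ((occ b w (y m) K : ℝ) - (K : ℝ) / (b : ℝ) ^ l) ^ (2 * r) := by
          refine Finset.sum_le_sum fun m hm => ?_
          rw [hT, Finset.mem_filter] at hm
          rw [← Even.pow_abs (⟨r, by ring⟩ : Even (2 * r)) ((occ b w (y m) K : ℝ) - (K : ℝ) / (b : ℝ) ^ l)]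
          exact pow_le_pow_left₀ hZ0.le hm.2.le _
      _ ≤ _ := by
          apply Finset.sum_le_sum_of_subset_of_nonneg (Finset.filter_subset _ _)
          intro m _ _
          exact Even.pow_nonneg ⟨r, by ring⟩ _
  have hZp : Z ^ (2 * r) = (K : ℝ) ^ r * (K : ℝ) ^ (2 * ε * r) := by
    rw [hZ, ← Real.rpow_natCast, ← Real.rpow_mul hK0.le, ← Real.rpow_natCast (K : ℝ) r,
      ← Real.rpow_add hK0]
    congr 1
    push_cast
    ring
  have h2 : (T.card : ℝ) ≤ Cm * N * ((K : ℝ) ^ r + (K : ℝ) ^ (2 * r) * E) / Z ^ (2 * r) := by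
    rwa [le_div_iff₀ (by positivity)]
  refine h2.trans ?_
  rw [hZp, mul_div_assoc]
  apply mul_le_mul_of_nonneg_left _ (by positivity)
  rw [div_le_iff₀ (by positivity)]
  have h3 : (K : ℝ) ^ (-(2 * ε * r)) * (K : ℝ) ^ (2 * ε * r) = 1 := by
    rw [← Real.rpow_add hK0]; simp
  have h4 : (1 : ℝ) ≤ (K : ℝ) ^ (2 * ε * r) := Real.one_le_rpow hK1 (by positivity)
  have h5 : (K : ℝ) ^ (2 * r) = (K : ℝ) ^ r * (K : ℝ) ^ r := by rw [← pow_add]; ring_nf
  calc (K : ℝ) ^ r + (K : ℝ) ^ (2 * r) * E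
      = (K : ℝ) ^ r * ((K : ℝ) ^ (-(2 * ε * r)) * (K : ℝ) ^ (2 * ε * r)) +
        (K : ℝ) ^ r * (K : ℝ) ^ r * E * 1 := by rw [h3, h5]; ring
    _ ≤ (K : ℝ) ^ r * ((K : ℝ) ^ (-(2 * ε * r)) * (K : ℝ) ^ (2 * ε * r)) +
        (K : ℝ) ^ r * (K : ℝ) ^ r * E * (K : ℝ) ^ (2 * ε * r) := by gcongr
    _ = _ := by ring

open Classical in
/-- block frequencies with square root accuracy for almost all members -/
theorem freq_of_good (hM : S_mom) (b : ℕ) (hb : 2 ≤ b) (F : Set (ℕ → ℝ)) (hG : Good b F) (l : ℕ)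
    (C A ε : ℝ) (hC : 0 < C) (hε : 0 < ε) :
    ∃ N0 : ℕ, ∀ N : ℕ, N0 ≤ N → ∀ y ∈ F,
      ((((Finset.range N).filter (fun m => ∃ K : ℕ, Real.log N ^ ε ≤ K ∧ (K : ℝ) ≤ C * Real.log N ∧
        ∃ w : Fin l → ℤ, (∀ i, 0 ≤ w i ∧ w i < b) ∧ (K : ℝ) ^ ((1 : ℝ) / 2 + ε) <
          |(occ b w (y m) K : ℝ) - (K : ℝ) / (b : ℝ) ^ l|)).card : ℕ) : ℝ) ≤
        N / Real.log N ^ A := by
  obtain ⟨r, hr⟩ := exists_nat_ge ((A + 2) / (2 * ε ^ 2))
  have hr' : A + 2 ≤ 2 * ε ^ 2 * r := by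
    rw [div_le_iff₀ (by positivity)] at hr
    linarith
  obtain ⟨Cm, hCm, hmom⟩ := hM l r
  obtain ⟨c, hc, N0, hI⟩ := hG (2 * r * l) (C + 1) (by linarith)
  have hlog : Tendsto (fun N : ℕ => Real.log (N : ℝ)) atTop atTop :=
    Real.tendsto_log_atTop.comp tendsto_natCast_atTop_atTop
  set W : ℝ := C * (b : ℝ) ^ l * Cm with hW
  have hb0 : (0 : ℝ) < b := by positivity
  have hW0 : 0 < W := by positivity
  -- the two error terms tend to zero
  have hlim1 : Tendsto (fun L : ℝ => W * (L⁻¹ + C ^ r * (L ^ (A + 1 + r) * Real.exp (-c * L)))) atTop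
      (𝓝 (W * (0 + C ^ r * 0))) := by
    apply Tendsto.const_mul
    apply Tendsto.add tendsto_inv_atTop_zero
    apply Tendsto.const_mul
    exact tendsto_rpow_mul_exp_neg_mul_atTop_nhds_zero (A + 1 + r) c hc
  have hlim2 := hlim1.comp hlog
  rw [mul_zero, add_zero, mul_zero] at hlim2
  have hev := ((hlim2.eventually_le_const one_pos).and (hlog.eventually_ge_atTop
    (max 1 (l : ℝ)))).and (eventually_ge_atTop (max N0 1))
  obtain ⟨N1, hN1⟩ := eventually_atTop.1 hev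
  refine ⟨N1, fun N hN y hy => ?_⟩
  obtain ⟨⟨h1, h2⟩, h3⟩ := hN1 N hN
  simp only [Function.comp] at h1
  set L : ℝ := Real.log (N : ℝ) with hL
  have hL1 : 1 ≤ L := (le_max_left _ _).trans h2
  have hLl : (l : ℝ) ≤ L := (le_max_right _ _).trans h2
  have hL0 : 0 < L := by linarith
  have hNN0 : N0 ≤ N := (le_max_left _ _).trans h3
  have hNone : 1 ≤ N := (le_max_right _ _).trans h3
  have hN0 : (0 : ℝ) < N := by exact_mod_cast hNone
  set K0 : ℕ := ⌊C * L⌋₊ with hK0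
  have hK0le : (K0 : ℝ) ≤ C * L := Nat.floor_le (by positivity)
  have hInd := hI N hNN0 (K0 + l) (by push_cast; rw [add_mul, one_mul]; linarith) y hy
  set E : ℝ := (N : ℝ) ^ (-c) with hE
  have hE0 : 0 ≤ E := by positivity
  -- the index set
  set S1 : Finset ℕ := (Finset.range (K0 + 1)).filter (fun K : ℕ => L ^ ε ≤ K) with hS1
  set S2 : Finset (Fin l → ℤ) := Fintype.piFinset (fun _ => Finset.Ico (0 : ℤ) b) with hS2
  set bad : ℕ → (Fin l → ℤ) → Finset ℕ := fun K w => (Finset.range N).filter (fun m =>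
    (K : ℝ) ^ ((1 : ℝ) / 2 + ε) < |(occ b w (y m) K : ℝ) - (K : ℝ) / (b : ℝ) ^ l|) with hbad
  have hsub : ((Finset.range N).filter (fun m => ∃ K : ℕ, L ^ ε ≤ K ∧ (K : ℝ) ≤ C * L ∧
        ∃ w : Fin l → ℤ, (∀ i, 0 ≤ w i ∧ w i < b) ∧ (K : ℝ) ^ ((1 : ℝ) / 2 + ε) <
          |(occ b w (y m) K : ℝ) - (K : ℝ) / (b : ℝ) ^ l|)) ⊆
      (S1 ×ˢ S2).biUnion (fun p => bad p.1 p.2) := by
    intro m hm
    rw [Finset.mem_filter] at hm
    obtain ⟨hm1, K, hK1, hK2, w, hw, hlt⟩ := hm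
    rw [Finset.mem_biUnion]
    refine ⟨(K, w), ?_, ?_⟩
    · rw [Finset.mem_product]
      refine ⟨?_, ?_⟩
      · simp only [hS1, Finset.mem_filter, Finset.mem_range]
        refine ⟨?_, hK1⟩
        have : K ≤ K0 := Nat.le_floor hK2
        omega
      · simp only [hS2, Fintype.mem_piFinset, Finset.mem_Ico]
        exact hw
    · simp only [hbad, Finset.mem_filter]
      exact ⟨hm1, hlt⟩
  have hcard2 : (S2.card : ℝ) = (b : ℝ) ^ l := by
    rw [hS2, Fintype.card_piFinset]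
    simp
  have hcard1 : (S1.card : ℝ) ≤ C * L := by
    have h0 : S1 ⊆ Finset.Icc 1 K0 := by
      intro K hK
      simp only [hS1, Finset.mem_filter, Finset.mem_range] at hK
      rw [Finset.mem_Icc]
      have : (1 : ℝ) ≤ K := (Real.one_le_rpow hL1 hε.le).trans hK.2
      have h' : 1 ≤ K := by exact_mod_cast this
      omega
    have h4 := Finset.card_le_card h0
    rw [Nat.card_Icc, Nat.add_sub_cancel] at h4
    calc (S1.card : ℝ) ≤ K0 := by exact_mod_cast h4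
      _ ≤ C * L := hK0le
  have hone : ∀ p ∈ S1 ×ˢ S2, ((bad p.1 p.2).card : ℝ) ≤
      Cm * N * (L ^ (-(A + 2)) + (C * L) ^ r * E) := by
    rintro ⟨K, w⟩ hp
    rw [Finset.mem_product] at hp
    obtain ⟨hp1, hp2⟩ := hp
    simp only [hS1, Finset.mem_filter, Finset.mem_range] at hp1
    simp only [hS2, Fintype.mem_piFinset, Finset.mem_Ico] at hp2
    have hKge : (1 : ℝ) ≤ K := (Real.one_le_rpow hL1 hε.le).trans hp1.2
    have hK1 : 1 ≤ K := by exact_mod_cast hKge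
    have hKK0 : K ≤ K0 := by omega
    have hmm := hmom b hb N (K0 + l) hNone E hE0 y hInd w hp2 K hK1 (by omega)
    have hmk := markov N K r l b w y Cm ε E hK1 hmm hCm.le hE0 hε
    refine hmk.trans ?_
    apply mul_le_mul_of_nonneg_left _ (by positivity)
    apply add_le_add
    · calc (K : ℝ) ^ (-(2 * ε * r)) ≤ (L ^ ε) ^ (-(2 * ε * r)) := by
            apply Real.rpow_le_rpow_of_nonpos (by positivity) hp1.2
            have : (0 : ℝ) ≤ 2 * ε * r := by positivity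
            linarith
        _ = L ^ (-(2 * ε ^ 2 * r)) := by
            rw [← Real.rpow_mul hL0.le]; congr 1; ring
        _ ≤ L ^ (-(A + 2)) := Real.rpow_le_rpow_of_exponent_le hL1 (by linarith)
    · apply mul_le_mul_of_nonneg_right _ hE0
      apply pow_le_pow_left₀ (by positivity)
      have : (K : ℝ) ≤ K0 := by exact_mod_cast hKK0
      linarith
  have htot : ((((Finset.range N).filter (fun m => ∃ K : ℕ, L ^ ε ≤ K ∧ (K : ℝ) ≤ C * L ∧
        ∃ w : Fin l → ℤ, (∀ i, 0 ≤ w i ∧ w i < b) ∧ (K : ℝ) ^ ((1 : ℝ) / 2 + ε) <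
          |(occ b w (y m) K : ℝ) - (K : ℝ) / (b : ℝ) ^ l|)).card : ℕ) : ℝ) ≤
      (C * L) * (b : ℝ) ^ l * (Cm * N * (L ^ (-(A + 2)) + (C * L) ^ r * E)) := by
    calc _ ≤ ((((S1 ×ˢ S2).biUnion (fun p => bad p.1 p.2)).card : ℕ) : ℝ) := by
          exact_mod_cast Finset.card_le_card hsub
      _ ≤ ∑ p ∈ S1 ×ˢ S2, ((bad p.1 p.2).card : ℝ) := by
          exact_mod_cast Finset.card_biUnion_le
      _ ≤ ∑ p ∈ S1 ×ˢ S2, Cm * N * (L ^ (-(A + 2)) + (C * L) ^ r * E) := Finset.sum_le_sum hone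
      _ = (S1.card : ℝ) * S2.card * (Cm * N * (L ^ (-(A + 2)) + (C * L) ^ r * E)) := by
          rw [Finset.sum_const, Finset.card_product, nsmul_eq_mul]; push_cast; ring
      _ ≤ _ := by
          rw [hcard2]
          gcongr
  refine htot.trans ?_
  have hEexp : E = Real.exp (-c * L) := by
    rw [hE, Real.rpow_def_of_pos hN0, ← hL]; congr 1; ring
  have e1 : (C * L) * (b : ℝ) ^ l * (Cm * N * (L ^ (-(A + 2)) + (C * L) ^ r * E)) =
      N * L ^ (-A) * (W * (L⁻¹ + C ^ r * (L ^ (A + 1 + r) * Real.exp (-c * L)))) := by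
    have f1 : L ^ (-A) * L⁻¹ = L * L ^ (-(A + 2)) := by
      rw [← Real.rpow_neg_one, ← Real.rpow_add hL0]
      nth_rewrite 2 [← Real.rpow_one L]
      rw [← Real.rpow_add hL0]
      congr 1; ring
    have f2 : L ^ (-A) * L ^ (A + 1 + r) = L * L ^ r := by
      rw [← Real.rpow_add hL0, ← Real.rpow_natCast]
      nth_rewrite 2 [← Real.rpow_one L]
      rw [← Real.rpow_add hL0]
      congr 1; ring
    rw [hEexp, hW, mul_pow]
    calc C * L * (b : ℝ) ^ l * (Cm * N * (L ^ (-(A + 2)) + C ^ r * L ^ r * Real.exp (-c * L)))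
        = N * (C * (b : ℝ) ^ l * Cm) * ((L * L ^ (-(A + 2))) + C ^ r * ((L * L ^ r) * Real.exp (-c * L))) := by
          ring
      _ = N * (C * (b : ℝ) ^ l * Cm) * ((L ^ (-A) * L⁻¹) +
            C ^ r * ((L ^ (-A) * L ^ (A + 1 + r)) * Real.exp (-c * L))) := by rw [f1, f2]
      _ = _ := by ring
  rw [e1, div_eq_mul_inv, ← Real.rpow_neg hL0.le]
  calc N * L ^ (-A) * (W * (L⁻¹ + C ^ r * (L ^ (A + 1 + r) * Real.exp (-c * L))))
      ≤ N * L ^ (-A) * 1 := by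
        apply mul_le_mul_of_nonneg_left h1 (by positivity)
    _ = _ := mul_one _

end Pool.Agent.W261.NM
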