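import Pool.Agent.W261.NM.Stm

set_option autoImplicit false
open Filter Topology Set Finset

namespace Pool.Agent.W261.NM

/-- few digits at places up to `C log N` are independent with a power saving, uniformly in the
family -/
def Good (b : ℕ) (F : Set (ℕ → ℝ)) : Prop :=
  ∀ s : ℕ, ∀ C : ℝ, 0 < C → ∃ c : ℝ, 0 < c ∧ ∃ N0 : ℕ, ∀ N : ℕ, N0 ≤ N → ∀ K : ℕ,
    (K : ℝ) ≤ C * Real.log N → ∀ y ∈ F, Ind b s N K ((N : ℝ) ^ (-c)) y

theorem Ind.mono {b s N K : ℕ} {E E' : ℝ} {y : ℕ → ℝ} (h : Ind b s N K E y) (hE : E ≤ E') :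
    Ind b s N K E' y := by
  intro s' hs' e he heK a ha
  exact (h s' hs' e he heK a ha).trans (mul_le_mul_of_nonneg_right hE (Nat.cast_nonneg N))

theorem ev_rpow (A e : ℝ) (he : 0 < e) : ∀ᶠ N : ℕ in atTop, A ≤ (N : ℝ) ^ e :=
  ((tendsto_rpow_atTop he).comp tendsto_natCast_atTop_atTop).eventually_ge_atTop A

theorem good_of_wy (hS : S_ind) (b : ℕ) (hb : 2 ≤ b) (F : Set (ℕ → ℝ))
    (h : ∀ s : ℕ, ∀ C : ℝ, 0 < C → ∃ c : ℝ, 0 < c ∧ c < 1 ∧ ∃ N0 : ℕ, ∀ N : ℕ, N0 ≤ N →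
      ∀ K H : ℕ, (K : ℝ) ≤ C * Real.log N → (H : ℝ) ≤ (N : ℝ) ^ c → ∀ y ∈ F,
      Wy b s N K (H : ℝ) ((N : ℝ) ^ (1 - c)) y) : Good b F := by
  intro s C hC
  obtain ⟨c, hc, hc1, N0, hW⟩ := h s C hC
  obtain ⟨Cs, hCs, hI⟩ := hS s
  set c' : ℝ := c / (2 * (s + 1)) with hc'
  have hc'0 : 0 < c' := by positivity
  have hc'c : c' ≤ c := by
    rw [hc', div_le_iff₀ (by positivity)]
    have : (0 : ℝ) ≤ s := Nat.cast_nonneg s
    nlinarith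
  have hc's : c' * s ≤ c / 2 := by
    rw [hc']
    rw [div_mul_eq_mul_div, div_le_div_iff₀ (by positivity) (by norm_num)]
    have : (0 : ℝ) ≤ s := Nat.cast_nonneg s
    nlinarith
  refine ⟨c' / 4, by positivity, ?_⟩
  have hev := (ev_rpow (3 * Cs) (c' / 4) (by positivity)).and (eventually_ge_atTop (max N0 1))
  obtain ⟨N1, hN1⟩ := eventually_atTop.1 hev
  refine ⟨N1, fun N hN K hK y hy => ?_⟩
  obtain ⟨h1, h2⟩ := hN1 N hN
  have hNN0 : N0 ≤ N := (le_max_left _ _).trans h2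
  have hNone : 1 ≤ N := (le_max_right _ _).trans h2
  have hNR : (1 : ℝ) ≤ N := by exact_mod_cast hNone
  have hN0 : (0 : ℝ) < N := by linarith
  set H : ℕ := ⌊(N : ℝ) ^ c'⌋₊ with hH
  have hNc : (1 : ℝ) ≤ (N : ℝ) ^ c' := Real.one_le_rpow hNR hc'0.le
  have hH1 : 1 ≤ H := Nat.le_floor (by exact_mod_cast hNc)
  have hHle : (H : ℝ) ≤ (N : ℝ) ^ c' := Nat.floor_le (by linarith)
  have hHR : (1 : ℝ) ≤ H := by exact_mod_cast hH1
  have hHge : (N : ℝ) ^ c' / 2 ≤ H := by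
    have := Nat.lt_floor_add_one ((N : ℝ) ^ c')
    rw [← hH] at this
    linarith
  have hw := hW N hNN0 K H hK (hHle.trans (Real.rpow_le_rpow_of_exponent_le hNR hc'c)) y hy
  have key := hI b hb N K H hNone hH1 ((N : ℝ) ^ (1 - c)) (by positivity) y hw
  refine key.mono ?_
  -- bound the two terms
  have e1 : 1 / Real.sqrt H ≤ 2 * (N : ℝ) ^ (-(c' / 2)) := by
    have a1 : (N : ℝ) ^ (c' / 2) / 2 ≤ Real.sqrt H := by
      apply Real.le_sqrt_of_sq_le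
      have : ((N : ℝ) ^ (c' / 2) / 2) ^ 2 = (N : ℝ) ^ c' / 4 := by
        rw [div_pow, ← Real.rpow_natCast ((N : ℝ) ^ (c' / 2)), ← Real.rpow_mul hN0.le]
        norm_num
      rw [this]
      linarith
    have a2 : 0 < (N : ℝ) ^ (c' / 2) := by positivity
    rw [Real.rpow_neg hN0.le]
    calc 1 / Real.sqrt H ≤ 1 / ((N : ℝ) ^ (c' / 2) / 2) :=
          one_div_le_one_div_of_le (by positivity) a1
      _ = _ := by rw [one_div_div, div_eq_mul_inv]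
  have e2 : (H : ℝ) ^ s * (N : ℝ) ^ (1 - c) / N ≤ (N : ℝ) ^ (-(c' / 2)) := by
    have a1 : (H : ℝ) ^ s ≤ (N : ℝ) ^ (c / 2) := by
      calc (H : ℝ) ^ s ≤ ((N : ℝ) ^ c') ^ s := pow_le_pow_left₀ (by linarith) hHle s
        _ = (N : ℝ) ^ (c' * s) := by rw [← Real.rpow_natCast, ← Real.rpow_mul hN0.le]
        _ ≤ (N : ℝ) ^ (c / 2) := Real.rpow_le_rpow_of_exponent_le hNR hc's
    have a2 : (N : ℝ) ^ (1 - c) / N = (N : ℝ) ^ (-c) := by
      rw [div_eq_iff hN0.ne', ← Real.rpow_add_one hN0.ne']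
      congr 1; ring
    rw [mul_div_assoc, a2]
    calc (H : ℝ) ^ s * (N : ℝ) ^ (-c) ≤ (N : ℝ) ^ (c / 2) * (N : ℝ) ^ (-c) :=
          mul_le_mul_of_nonneg_right a1 (by positivity)
      _ = (N : ℝ) ^ (-(c / 2)) := by rw [← Real.rpow_add hN0]; congr 1; ring
      _ ≤ _ := Real.rpow_le_rpow_of_exponent_le hNR (by linarith)
  have e3 : (N : ℝ) ^ (-(c' / 2)) = (N : ℝ) ^ (-(c' / 4)) * (N : ℝ) ^ (-(c' / 4)) := by
    rw [← Real.rpow_add hN0]; congr 1; ring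
  have e4 : 3 * Cs * (N : ℝ) ^ (-(c' / 4)) ≤ 1 := by
    rw [Real.rpow_neg hN0.le, ← div_eq_mul_inv, div_le_one (by positivity)]
    exact h1
  calc Cs * (1 / Real.sqrt H + (H : ℝ) ^ s * (N : ℝ) ^ (1 - c) / N)
      ≤ Cs * (2 * (N : ℝ) ^ (-(c' / 2)) + (N : ℝ) ^ (-(c' / 2))) := by gcongr
    _ = (3 * Cs * (N : ℝ) ^ (-(c' / 4))) * (N : ℝ) ^ (-(c' / 4)) := by rw [e3]; ring
    _ ≤ 1 * (N : ℝ) ^ (-(c' / 4)) := mul_le_mul_of_nonneg_right e4 (by positivity)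
    _ = _ := one_mul _

end Pool.Agent.W261.NM
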