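import Mathlib

/-!
Project NM (helper261): digits of almost all members of a family of real numbers.
`y m`, `m < N`, are real numbers; `Wy` is a bound for their exponential sums at the integers
`sum lam_i b^(e_i)`, `Ind` is the independence of few digits with an error term.
-/

set_option autoImplicit false
open Filter Topology Set Finset

namespace Pool.Agent.W261.NM

/-- `exp (2 pi i x)` -/
noncomputable def ex (x : ℝ) : ℂ := Complex.exp (2 * Real.pi * x * Complex.I)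

/-- the `i`-th base `b` digit of `y` after the point (`i ≥ 1`) -/
noncomputable def dig (b : ℕ) (y : ℝ) (i : ℕ) : ℤ := ⌊y * (b : ℝ) ^ i⌋ % (b : ℤ)

/-- exponential sums over `m < N` at the nonzero integers `∑ lam_i b^(e_i)` (at most `D` terms,
`e_i ≤ K`, `|lam_i| ≤ R`) are at most `B` -/
def Wy (b D N K : ℕ) (R B : ℝ) (y : ℕ → ℝ) : Prop :=
  ∀ e : Fin D → ℕ, (∀ i, e i ≤ K) → ∀ lam : Fin D → ℤ, (∀ i, |(lam i : ℝ)| ≤ R) →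
    ∑ i, lam i * (b : ℤ) ^ (e i) ≠ 0 →
    ‖∑ m ∈ Finset.range N, ex (((∑ i, lam i * (b : ℤ) ^ (e i) : ℤ) : ℝ) * y m)‖ ≤ B

open Classical in
/-- at most `s` digits at places `≤ K` are independent up to the error `E` -/
def Ind (b s N K : ℕ) (E : ℝ) (y : ℕ → ℝ) : Prop :=
  ∀ s' : ℕ, s' ≤ s → ∀ e : Fin s' → ℕ, Function.Injective e → (∀ i, 1 ≤ e i ∧ e i ≤ K) →
    ∀ a : Fin s' → ℤ, (∀ i, 0 ≤ a i ∧ a i < b) →
    |((((Finset.range N).filter (fun m => ∀ i, dig b (y m) (e i) = a i)).card : ℕ) : ℝ)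
      - (N : ℝ) / (b : ℝ) ^ s'| ≤ E * N

/-- IND -/
def S_ind : Prop := ∀ s : ℕ, ∃ C : ℝ, 0 < C ∧ ∀ b : ℕ, 2 ≤ b → ∀ N K H : ℕ, 1 ≤ N → 1 ≤ H →
  ∀ B : ℝ, 0 ≤ B → ∀ y : ℕ → ℝ, Wy b s N K (H : ℝ) B y →
  Ind b s N K (C * (1 / Real.sqrt H + (H : ℝ) ^ s * B / N)) y

open Classical in
/-- number of occurrences of the block `w` starting at one of the places `1, …, K` of `y` -/
noncomputable def occ (b : ℕ) {l : ℕ} (w : Fin l → ℤ) (y : ℝ) (K : ℕ) : ℕ :=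
  ((Finset.range K).filter (fun k => ∀ i : Fin l, dig b y (k + 1 + i) = w i)).card

/-- MOM -/
def S_mom : Prop := ∀ l r : ℕ, ∃ C : ℝ, 0 < C ∧ ∀ b : ℕ, 2 ≤ b → ∀ N K : ℕ, 1 ≤ N →
  ∀ E : ℝ, 0 ≤ E → ∀ y : ℕ → ℝ, Ind b (2 * r * l) N K E y →
  ∀ w : Fin l → ℤ, (∀ i, 0 ≤ w i ∧ w i < b) → ∀ K' : ℕ, 1 ≤ K' → K' + l ≤ K + 1 →
  ∑ m ∈ Finset.range N, ((occ b w (y m) K' : ℝ) - (K' : ℝ) / (b : ℝ) ^ l) ^ (2 * r) ≤
    C * N * ((K' : ℝ) ^ r + (K' : ℝ) ^ (2 * r) * E)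

open Classical in
/-- CLT -/
def S_clt : Prop := ∀ b : ℕ, 2 ≤ b → ∀ (N K : ℕ → ℕ) (y : ℕ → ℕ → ℝ), (∀ j, 1 ≤ N j) →
  Tendsto K atTop atTop →
  (∀ s A : ℕ, ∃ E : ℕ → ℝ, (∀ j, 0 ≤ E j) ∧ (∀ᶠ j in atTop, Ind b s (N j) (K j) (E j) (y j)) ∧
    Tendsto (fun j => (K j : ℝ) ^ A * E j) atTop (𝓝 0)) →
  ∀ u : ℝ, Tendsto (fun j => ((((Finset.range (N j)).filter (fun m =>
      ((∑ k ∈ Finset.range (K j), dig b (y j m) (k + 1) : ℤ) : ℝ) ≤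
        (K j : ℝ) * ((b : ℝ) - 1) / 2 + u * Real.sqrt ((K j : ℝ) * ((b : ℝ) ^ 2 - 1) / 12))).card
          : ℕ) : ℝ) / N j) atTop
    (𝓝 ((ProbabilityTheory.gaussianReal 0 1 (Set.Iic u)).toReal))

end Pool.Agent.W261.NM
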